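import Pool.Agent.P.MP_b49e67_gt.CCMain

namespace Pool.Agent.Results.MP_b49e67_gt.CccCon

open Pool.Agent.Lib.Helper87 Pool.Agent.P.MP_6e1b89_gt Pool.Agent.P.MP_c9188c_gt
open Pool.Agent.P.MP_b49e67_gt

/-- There is a transitive model `M` of ZFC containing a nonempty space which, in the sense of `M`,
is compact, Hausdorff, first countable and ccc, and is not a continuous image of the space of free
ultrafilters on the natural numbers. -/
theorem result : ∃ M : Set ZFSet.{0}, TransModelZFC M ∧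
    ∃ (X : Type) (c : X → ZFSet.{0}) (𝒯 : Set (Set X)), Nonempty X ∧ Function.Injective c ∧
      cSet c Set.univ ∈ M ∧ cSet (cSet c) 𝒯 ∈ M ∧ HausdorffIn M c 𝒯 ∧
      CompactIn M c 𝒯 Set.univ ∧ FirstIn M c 𝒯 ∧ CccIn M c 𝒯 ∧ ¬ ImageIn M c 𝒯 :=
  CC.main

end Pool.Agent.Results.MP_b49e67_gt.CccCon
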