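import Pool.Agent.P.MP_b49e67_gt.K3C

namespace Pool.Agent.Results.MP_b49e67_gt.DegreeThree

open Pool.Agent.P.MP_b49e67_gt

/-- The explicit space `K3` is a first countable Rosenthal compactum with an at most three-to-one
continuous map into a metric space, and it is a continuous image of the space of free ultrafilters
on the natural numbers exactly when the Cantor set has a subset of size continuum all of whose
countable subsets are relatively `Gδ`. -/
theorem result : CompactSpace K3 ∧ T2Space K3 ∧ FirstCountableTopology K3 ∧ Rosenthal K3 ∧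
    DegLE K3 3 ∧ (IsImage K3 ↔ ∃ X : Set (ℕ → Bool), Cardinal.mk X = Cardinal.continuum ∧
      ∀ D ⊆ X, D.Countable → ∃ G, IsGδ G ∧ D = X ∩ G) :=
  ⟨inferInstance, inferInstance, first_of_degLE degLE_K3, rosenthal_K3, degLE_K3,
    lambda_of_image, fun ⟨_, h1, h2⟩ => image_of_lambda h1 h2⟩

end Pool.Agent.Results.MP_b49e67_gt.DegreeThree
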