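import Pool.Agent.P.MP_b49e67_gt.Two

namespace Pool.Agent.Results.MP_b49e67_gt.DegreeTwo

open Pool.Agent.P.MP_b49e67_gt

/-- Every nonempty compact Hausdorff space with an at most two-to-one continuous map into a metric
space is a continuous image of the space of free ultrafilters on the natural numbers. -/
theorem result (K : Type) [TopologicalSpace K] [CompactSpace K] [T2Space K] [Nonempty K]
    (h : DegLE K 2) : IsImage K :=
  isImage_of_degLE_two K h

end Pool.Agent.Results.MP_b49e67_gt.DegreeTwo
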