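import Pool.Agent.P.MP_b49e67_gt.MA.Main

namespace Pool.Agent.Results.MP_b49e67_gt.MartinModel

open Pool.Agent.Lib.Helper87 Pool.Agent.P.MP_6e1b89_gt Pool.Agent.P.MP_c9188c_gt
open Pool.Agent.P.MP_b49e67_gt

/-- There is a transitive model `M` of ZFC in which the continuum hypothesis fails and Martin's
axiom holds (`C` is the power set of the natural numbers in `M`), containing a nonempty space which,
in the sense of `M`, is compact, Hausdorff and first countable, and is not a continuous image of the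
space of free ultrafilters on the natural numbers. -/
theorem result : ∃ M : Set ZFSet.{0}, TransModelZFC M ∧
    (∃ C ∈ M, (∀ z, z ∈ C ↔ z ∈ M ∧ z ⊆ ZFSet.omega) ∧
      (∃ κ ∈ M, ¬ CardLE M κ ZFSet.omega ∧ ¬ CardLE M C κ) ∧
      ∀ κ ∈ M, ¬ CardLE M C κ → MAIn M κ) ∧
    ∃ (X : Type) (c : X → ZFSet.{0}) (𝒯 : Set (Set X)), Nonempty X ∧ Function.Injective c ∧
      cSet c Set.univ ∈ M ∧ cSet (cSet c) 𝒯 ∈ M ∧ HausdorffIn M c 𝒯 ∧
      CompactIn M c 𝒯 Set.univ ∧ FirstIn M c 𝒯 ∧ ¬ ImageIn M c 𝒯 :=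
  MA.main

end Pool.Agent.Results.MP_b49e67_gt.MartinModel
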